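import Mathlib

/-!
# MP_1b30fb_an: the Riesz ratios of the sets `E_n` tend to infinity
-/

set_option autoImplicit false

open Finset
open scoped Matrix.Norms.L2Operator ENNReal

namespace Pool.Agent.Results.MP_1b30fb_an.Unbounded

/-! ### Definitions -/

/-- The character `e_b (x) = exp (2 π i (b · x) / p)` of `ℤ_p²`. -/
noncomputable def ch {p : ℕ} [NeZero p] (b x : ZMod p × ZMod p) : ℂ :=
  ZMod.stdAddChar (b.1 * x.1 + b.2 * x.2)

/-- The matrix `T (E, B)` with entries `e_b (x)`, `x ∈ E`, `b ∈ B`, where `B` is the image of the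
injective map `b` (so `|B| = |E|`; the columns are indexed by `E` through `b`). -/
noncomputable def T {p : ℕ} [NeZero p] (E : Finset (ZMod p × ZMod p))
    (b : E ↪ ZMod p × ZMod p) : Matrix E E ℂ :=
  Matrix.of fun x y => ch (b y) x

/-- The Riesz ratio `‖T‖² ‖T⁻¹‖²` of `B` relative to `E` (operator norms for the Euclidean norms),
`∞` if the matrix is singular. -/
noncomputable def rieszRatio {p : ℕ} [NeZero p] (E : Finset (ZMod p × ZMod p))
    (b : E ↪ ZMod p × ZMod p) : ℝ≥0∞ :=
  open Classical in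
  if IsUnit (T E b).det then ENNReal.ofReal (‖T E b‖ ^ 2 * ‖(T E b)⁻¹‖ ^ 2) else ⊤

/-- The Riesz ratio of `E`: the minimum over all `B` with `|B| = |E|`. -/
noncomputable def rho {p : ℕ} [NeZero p] (E : Finset (ZMod p × ZMod p)) : ℝ≥0∞ :=
  ⨅ b : E ↪ ZMod p × ZMod p, rieszRatio E b

/-- The set `({0} × ℤ_p) ∪ {(t, t)} ∪ {(1, 0)}`. -/
def E (p : ℕ) [NeZero p] : Finset (ZMod p × ZMod p) :=
  ((univ : Finset (ZMod p)).image fun t => (0, t)) ∪
    ((univ : Finset (ZMod p)).image fun t => (t, t)) ∪ {(1, 0)}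

/-- The `n`-th odd prime for `n ≥ 1` (and `2` for `n = 0`). -/
noncomputable def oddPrime (n : ℕ) : ℕ := Nat.nth Nat.Prime n

instance (n : ℕ) : NeZero (oddPrime n) := ⟨(Nat.prime_nth_prime n).ne_zero⟩

/-! ### Norms -/

section norm

variable {ι : Type} [Fintype ι] [DecidableEq ι]

theorem mulVec_le (A : Matrix ι ι ℂ) (c : ι → ℂ) :
    ∑ x, ‖(A.mulVec c) x‖ ^ 2 ≤ ‖A‖ ^ 2 * ∑ y, ‖c y‖ ^ 2 := by
  have h := Matrix.l2_opNorm_mulVec A (WithLp.toLp 2 c)
  have h1 : ‖(WithLp.toLp 2 (A.mulVec c) : EuclideanSpace ℂ ι)‖ ^ 2 = ∑ x, ‖(A.mulVec c) x‖ ^ 2 := by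
    rw [EuclideanSpace.norm_sq_eq]
  have h2 : ‖(WithLp.toLp 2 c : EuclideanSpace ℂ ι)‖ ^ 2 = ∑ x, ‖c x‖ ^ 2 := by
    rw [EuclideanSpace.norm_sq_eq]
  rw [← h1, ← h2, ← mul_pow]
  exact pow_le_pow_left₀ (norm_nonneg _) h 2

theorem inv_le (A : Matrix ι ι ℂ) (hA : IsUnit A.det) (c : ι → ℂ) :
    ∑ y, ‖c y‖ ^ 2 ≤ ‖A⁻¹‖ ^ 2 * ∑ x, ‖(A.mulVec c) x‖ ^ 2 := by
  have h := mulVec_le A⁻¹ (A.mulVec c)
  rw [Matrix.mulVec_mulVec, Matrix.nonsing_inv_mul A hA, Matrix.one_mulVec] at h
  exact h

theorem ratio_ge (A : Matrix ι ι ℂ) (hA : IsUnit A.det) (c c' : ι → ℂ) (a a' s s' : ℝ)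
    (ha : a ≤ ∑ y, ‖c y‖ ^ 2) (hs : ∑ x, ‖(A.mulVec c) x‖ ^ 2 ≤ s) (hs0 : 0 < s)
    (ha' : ∑ y, ‖c' y‖ ^ 2 ≤ a') (ha0 : 0 < a') (hs' : s' ≤ ∑ x, ‖(A.mulVec c') x‖ ^ 2)
    (ha1 : 0 ≤ a) :
    s' * a / (a' * s) ≤ ‖A‖ ^ 2 * ‖A⁻¹‖ ^ 2 := by
  rw [div_le_iff₀ (by positivity)]
  have h1 : a ≤ ‖A⁻¹‖ ^ 2 * s := ha.trans ((inv_le A hA c).trans
    (mul_le_mul_of_nonneg_left hs (by positivity)))
  have h2 : s' ≤ ‖A‖ ^ 2 * a' := hs'.trans ((mulVec_le A c').trans
    (mul_le_mul_of_nonneg_left ha' (by positivity)))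
  calc s' * a ≤ (‖A‖ ^ 2 * a') * (‖A⁻¹‖ ^ 2 * s) := mul_le_mul h2 h1 ha1 (by positivity)
    _ = _ := by ring

end norm

/-! ### The graph of `B` -/

section graph

variable {p : ℕ} [NeZero p] (b : E p ↪ ZMod p × ZMod p)

/-- the left end of the edge `y` -/
def lf (y : E p) : ZMod p := (b y).2

/-- the right end of the edge `y` -/
def rt (y : E p) : ZMod p := (b y).1 + (b y).2

theorem ch_zero (y : E p) (x : ZMod p × ZMod p) (hx : x.1 = 0) :
    ch (b y) x = ZMod.stdAddChar (lf b y * x.2) := by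
  rw [ch, lf, hx, mul_zero, zero_add]

theorem ch_diag (y : E p) (x : ZMod p × ZMod p) (hx : x.1 = x.2) :
    ch (b y) x = ZMod.stdAddChar (rt b y * x.2) := by
  rw [ch, rt, hx, add_mul]

theorem norm_char (a : ZMod p) : ‖(ZMod.stdAddChar a : ℂ)‖ = 1 := by
  exact AddChar.norm_apply _ _

theorem norm_ch (c x : ZMod p × ZMod p) : ‖ch c x‖ = 1 := norm_char _

theorem mem_E {x : ZMod p × ZMod p} : x ∈ E p ↔ x.1 = 0 ∨ x.1 = x.2 ∨ x = (1, 0) := by
  unfold E
  rw [mem_union, mem_union, mem_image, mem_image, mem_singleton]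
  constructor
  · rintro ((⟨t, -, rfl⟩ | ⟨t, -, rfl⟩) | h)
    · left; rfl
    · right; left; rfl
    · right; right; exact h
  · rintro (h | h | h)
    · left; left; exact ⟨x.2, mem_univ _, by rw [← h]⟩
    · left; right; exact ⟨x.2, mem_univ _, by rw [Prod.ext_iff]; exact ⟨h.symm, rfl⟩⟩
    · right; exact h

/-- A column sum determined by the values on a subgroup. -/
theorem fourier (c : E p → ℂ) (a : E p → ZMod p) (u : ZMod p)
    (h : ∀ s : ZMod p, ∑ y, ZMod.stdAddChar (a y * s) * c y = (ZMod.stdAddChar (u * s) : ℂ))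
    (W : Finset (ZMod p)) :
    ∑ y, (if a y ∈ W then c y else 0) = if u ∈ W then 1 else 0 := by
  have key : ∀ z : ZMod p, ∑ w ∈ W, ∑ s : ZMod p, (ZMod.stdAddChar (z * s) : ℂ) *
      ZMod.stdAddChar (-(w * s)) = if z ∈ W then (p : ℂ) else 0 := by
    intro z
    have h1 : ∀ w ∈ W, ∑ s : ZMod p, (ZMod.stdAddChar (z * s) : ℂ) *
        ZMod.stdAddChar (-(w * s)) = if w = z then (p : ℂ) else 0 := by
      intro w _
      have h2 := AddChar.sum_mulShift (R' := ℂ) (z - w) (ZMod.isPrimitive_stdAddChar p)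
      rw [ZMod.card] at h2
      calc ∑ s : ZMod p, (ZMod.stdAddChar (z * s) : ℂ) * ZMod.stdAddChar (-(w * s))
          = ∑ s : ZMod p, (ZMod.stdAddChar (s * (z - w)) : ℂ) := by
            apply Finset.sum_congr rfl
            intro s _
            rw [← AddChar.map_add_eq_mul]
            congr 1
            ring
        _ = _ := by
            rw [h2]
            by_cases hzw : w = z
            · rw [if_pos hzw, if_pos (by rw [hzw, sub_self])]
            · rw [if_neg hzw, if_neg (by intro h3; exact hzw (sub_eq_zero.1 h3).symm)]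
              simp
    rw [Finset.sum_congr rfl h1, Finset.sum_ite_eq' W z]
  have hp : (p : ℂ) ≠ 0 := Nat.cast_ne_zero.2 (NeZero.ne p)
  have h3 : ∑ y, (if a y ∈ W then (p : ℂ) else 0) * c y = if u ∈ W then (p : ℂ) else 0 := by
    rw [← key u]
    calc ∑ y, (if a y ∈ W then (p : ℂ) else 0) * c y
        = ∑ y, (∑ w ∈ W, ∑ s : ZMod p, (ZMod.stdAddChar (a y * s) : ℂ) *
            ZMod.stdAddChar (-(w * s))) * c y := by
          apply Finset.sum_congr rfl
          intro y _
          rw [key]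
      _ = ∑ w ∈ W, ∑ s : ZMod p, ∑ y, ((ZMod.stdAddChar (a y * s) : ℂ) * c y) *
            ZMod.stdAddChar (-(w * s)) := by
          simp only [Finset.sum_mul]
          rw [Finset.sum_comm]
          apply Finset.sum_congr rfl
          intro w _
          rw [Finset.sum_comm]
          apply Finset.sum_congr rfl
          intro s _
          apply Finset.sum_congr rfl
          intro y _
          ring
      _ = _ := by
          apply Finset.sum_congr rfl
          intro w _
          apply Finset.sum_congr rfl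
          intro s _
          rw [← Finset.sum_mul, h s]
  have h4 : (p : ℂ) * ∑ y, (if a y ∈ W then c y else 0) = (p : ℂ) * (if u ∈ W then 1 else 0) := by
    rw [Finset.mul_sum]
    rw [show (p : ℂ) * (if u ∈ W then 1 else 0) = if u ∈ W then (p : ℂ) else 0 by
      split_ifs <;> simp]
    rw [← h3]
    apply Finset.sum_congr rfl
    intro y _
    split_ifs <;> simp
  exact mul_left_cancel₀ hp h4

variable (hdet : IsUnit (T (E p) b).det)

include hdet in
/-- All pairs of ends can be prescribed. -/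
theorem prescribe (u v : ZMod p) : ∃ c : E p → ℂ,
    (∀ W : Finset (ZMod p), ∑ y, (if lf b y ∈ W then c y else 0) = if u ∈ W then 1 else 0) ∧
    (∀ W : Finset (ZMod p), ∑ y, (if rt b y ∈ W then c y else 0) = if v ∈ W then 1 else 0) := by
  classical
  let g : E p → ℂ := fun x => if x.1.1 = 0 then ZMod.stdAddChar (u * x.1.2) else
    ZMod.stdAddChar (v * x.1.2)
  let c : E p → ℂ := (T (E p) b)⁻¹.mulVec g
  have hc : (T (E p) b).mulVec c = g := by
    show (T (E p) b).mulVec ((T (E p) b)⁻¹.mulVec g) = g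
    rw [Matrix.mulVec_mulVec, Matrix.mul_nonsing_inv _ hdet, Matrix.one_mulVec]
  have hrow : ∀ x : E p, ∑ y, ch (b y) x * c y = g x := by
    intro x
    rw [← hc]
    rfl
  refine ⟨c, fun W => fourier c (lf b) u ?_ W, fun W => fourier c (rt b) v ?_ W⟩
  · intro s
    have h := hrow ⟨(0, s), mem_E.2 (Or.inl rfl)⟩
    simp only [g, if_true] at h
    rw [← h]
    apply Finset.sum_congr rfl
    intro y _
    rw [ch_zero b y (0, s) rfl]
  · intro s
    have h := hrow ⟨(s, s), mem_E.2 (Or.inr (Or.inl rfl))⟩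
    have hg : g ⟨(s, s), mem_E.2 (Or.inr (Or.inl rfl))⟩ = ZMod.stdAddChar (v * s) := by
      by_cases hs : s = 0
      · subst hs
        simp [g]
      · simp [g, hs]
    rw [hg] at h
    rw [← h]
    apply Finset.sum_congr rfl
    intro y _
    rw [ch_diag b y (s, s) rfl]

/-- The left ends reached in `k` double steps from `0`. -/
def R : ℕ → Finset (ZMod p)
  | 0 => {0}
  | k + 1 => R k ∪ ((((univ.filter fun y => lf b y ∈ R k).image (rt b)).biUnion
      fun v => univ.filter fun y => rt b y = v).image (lf b))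

theorem mem_R_succ (k : ℕ) (u : ZMod p) : u ∈ R b (k + 1) ↔
    u ∈ R b k ∨ ∃ y y', lf b y ∈ R b k ∧ rt b y' = rt b y ∧ lf b y' = u := by
  rw [R, mem_union, mem_image]
  constructor
  · rintro (h | ⟨y', h, rfl⟩)
    · exact Or.inl h
    · right
      rw [mem_biUnion] at h
      obtain ⟨v, hv, h⟩ := h
      rw [mem_image] at hv
      obtain ⟨y, hy, rfl⟩ := hv
      exact ⟨y, y', (mem_filter.1 hy).2, (mem_filter.1 h).2, rfl⟩
  · rintro (h | ⟨y, y', h, h1, rfl⟩)
    · exact Or.inl h
    · right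
      refine ⟨y', ?_, rfl⟩
      rw [mem_biUnion]
      exact ⟨rt b y, mem_image_of_mem _ (mem_filter.2 ⟨mem_univ _, h⟩), mem_filter.2 ⟨mem_univ _, h1⟩⟩

theorem card_R (D : ℕ) (hl : ∀ u, (univ.filter fun y => lf b y = u).card ≤ D)
    (hr : ∀ v, (univ.filter fun y => rt b y = v).card ≤ D) (k : ℕ) :
    (R b k).card ≤ (1 + D ^ 2) ^ k := by
  induction k with
  | zero => simp [R]
  | succ k ih =>
    rw [R]
    have h1 : (univ.filter fun y => lf b y ∈ R b k).card ≤ (R b k).card * D := by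
      have h2 : (univ.filter fun y => lf b y ∈ R b k)
          = (R b k).biUnion fun u => univ.filter fun y => lf b y = u := by
        ext y
        simp
      rw [h2]
      exact card_biUnion_le_card_mul _ _ _ fun u _ => hl u
    have h3 : ((((univ.filter fun y => lf b y ∈ R b k).image (rt b)).biUnion
      fun v => univ.filter fun y => rt b y = v).image (lf b)).card ≤ (R b k).card * D * D := by
      refine card_image_le.trans ((card_biUnion_le_card_mul _ _ D fun v _ => hr v).trans ?_)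
      exact Nat.mul_le_mul_right _ (card_image_le.trans h1)
    calc _ ≤ (R b k).card + (R b k).card * D * D := (card_union_le _ _).trans (by omega)
      _ = (R b k).card * (1 + D ^ 2) := by ring
      _ ≤ (1 + D ^ 2) ^ k * (1 + D ^ 2) := Nat.mul_le_mul_right _ ih
      _ = _ := (pow_succ _ _).symm

include hdet in
theorem connected (u : ZMod p) : ∃ k, u ∈ R b k := by
  classical
  by_contra hu
  let SL : Finset (ZMod p) := univ.filter fun w => ∃ k, w ∈ R b k
  let SR : Finset (ZMod p) := univ.filter fun v => ∃ y, lf b y ∈ SL ∧ rt b y = v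
  have h0 : (0 : ZMod p) ∈ SL := mem_filter.2 ⟨mem_univ _, 0, by simp [R]⟩
  have hiff : ∀ y, lf b y ∈ SL ↔ rt b y ∈ SR := by
    intro y
    constructor
    · intro h
      exact mem_filter.2 ⟨mem_univ _, y, h, rfl⟩
    · intro h
      obtain ⟨-, y1, h1, h2⟩ := mem_filter.1 h
      obtain ⟨-, k, hk⟩ := mem_filter.1 h1
      exact mem_filter.2 ⟨mem_univ _, k + 1, (mem_R_succ b k _).2 (Or.inr ⟨y1, y, hk, h2.symm, rfl⟩)⟩
  have hcount : ∀ w v : ZMod p, (if w ∈ SL then (1 : ℂ) else 0) = if v ∈ SR then 1 else 0 := by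
    intro w v
    obtain ⟨c, h1, h2⟩ := prescribe b hdet w v
    rw [← h1 SL, ← h2 SR]
    apply Finset.sum_congr rfl
    intro y _
    by_cases h : lf b y ∈ SL
    · rw [if_pos h, if_pos ((hiff y).1 h)]
    · rw [if_neg h, if_neg (fun h3 => h ((hiff y).2 h3))]
  have h3 := hcount 0 0
  have h4 := hcount u 0
  have hu' : u ∉ SL := fun h => hu (mem_filter.1 h).2
  rw [if_pos h0] at h3
  rw [if_neg hu', ← h3] at h4
  exact zero_ne_one h4

open Classical in
/-- the number of double steps from `0` -/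
noncomputable def lam (u : ZMod p) : ℕ := Nat.find (connected b hdet u)

theorem lam_mem (u : ZMod p) : u ∈ R b (lam b hdet u) := by
  classical
  exact Nat.find_spec (connected b hdet u)

theorem lam_le {u : ZMod p} {k : ℕ} (h : u ∈ R b k) : lam b hdet u ≤ k := by
  classical
  exact Nat.find_min' _ h

theorem lam_step {y y' : E p} (h : rt b y' = rt b y) :
    lam b hdet (lf b y') ≤ lam b hdet (lf b y) + 1 :=
  lam_le b hdet ((mem_R_succ b _ _).2 (Or.inr ⟨y, y', lam_mem b hdet _, h, rfl⟩))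

theorem parent {u : ZMod p} (hu : 1 ≤ lam b hdet u) : ∃ y y', rt b y' = rt b y ∧ lf b y' = u ∧
    lam b hdet (lf b y) + 1 = lam b hdet u := by
  obtain ⟨k, hk⟩ : ∃ k, lam b hdet u = k + 1 := ⟨lam b hdet u - 1, by omega⟩
  have h := lam_mem b hdet u
  rw [hk, mem_R_succ] at h
  rcases h with h | ⟨y, y', h1, h2, h3⟩
  · have := lam_le b hdet h
    omega
  · refine ⟨y, y', h2, h3, ?_⟩
    have h4 := lam_le b hdet h1
    have h5 := lam_step b hdet h2
    rw [h3] at h5
    omega

theorem chain (m : ℕ) : ∀ u, m ≤ lam b hdet u → ∃ (w : ℕ → ZMod p) (y y' : ℕ → E p), w 0 = u ∧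
    ∀ i < m, lf b (y' i) = w i ∧ lf b (y i) = w (i + 1) ∧ rt b (y' i) = rt b (y i) ∧
      lam b hdet (w (i + 1)) + 1 = lam b hdet (w i) := by
  induction m with
  | zero => intro u _; exact ⟨fun _ => u, fun _ => ⟨(0, 0), mem_E.2 (Or.inl rfl)⟩,
      fun _ => ⟨(0, 0), mem_E.2 (Or.inl rfl)⟩, rfl, fun i hi => absurd hi (by omega)⟩
  | succ m ih =>
    intro u hu
    obtain ⟨y0, y0', h1, h2, h3⟩ := parent b hdet (u := u) (by omega)
    obtain ⟨w, y, y', hw, h⟩ := ih (lf b y0) (by omega)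
    refine ⟨fun i => Nat.casesOn i u w, fun i => Nat.casesOn i y0 y,
      fun i => Nat.casesOn i y0' y', rfl, ?_⟩
    intro i hi
    cases i with
    | zero =>
      refine ⟨h2, hw.symm, h1.symm ▸ rfl, ?_⟩
      show lam b hdet (w 0) + 1 = lam b hdet u
      rw [hw, h3]
    | succ i => exact h i (by omega)

/-! ### The two cases -/

theorem card_E_le : (E p).card ≤ 2 * p + 1 := by
  unfold E
  have h1 : ((univ : Finset (ZMod p)).image fun t => ((0 : ZMod p), t)).card ≤ p :=
    card_image_le.trans (by rw [card_univ, ZMod.card])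
  have h2 : ((univ : Finset (ZMod p)).image fun t => (t, t)).card ≤ p :=
    card_image_le.trans (by rw [card_univ, ZMod.card])
  have h3 := card_union_le (((univ : Finset (ZMod p)).image fun t => ((0 : ZMod p), t)) ∪
    ((univ : Finset (ZMod p)).image fun t => (t, t))) {((1 : ZMod p), (0 : ZMod p))}
  have h4 := card_union_le ((univ : Finset (ZMod p)).image fun t => ((0 : ZMod p), t))
    ((univ : Finset (ZMod p)).image fun t => (t, t))
  rw [card_singleton] at h3
  omega

/-- A sum over a part of `E` given by an injective family. -/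
theorem sum_part_le (f : ZMod p × ZMod p → ℝ) (hf : ∀ x, 0 ≤ f x) (g : ZMod p → ZMod p × ZMod p)
    (hg : Function.Injective g) (hgE : ∀ t, g t ∈ E p) : ∑ t, f (g t) ≤ ∑ x : E p, f x.1 := by
  rw [Finset.sum_coe_sort (E p) f, ← Finset.sum_image (s := univ) (g := g) (f := f)
    (fun x _ y _ h => hg h)]
  apply Finset.sum_le_sum_of_subset_of_nonneg
  · intro x hx
    obtain ⟨t, -, rfl⟩ := mem_image.1 hx
    exact hgE t
  · intro x _ _
    exact hf x

theorem card_E_ge : p ≤ (E p).card := by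
  have h := sum_part_le (p := p) (fun _ => (1 : ℝ)) (fun _ => zero_le_one) (fun t => (0, t))
    (fun x y h => (Prod.ext_iff.1 h).2) (fun t => mem_E.2 (Or.inl rfl))
  rw [Finset.sum_const, Finset.sum_const, card_univ, card_univ, ZMod.card, Fintype.card_coe,
    nsmul_eq_mul, nsmul_eq_mul, mul_one, mul_one] at h
  exact_mod_cast h

/-- The image of a unit vector. -/
theorem single_sum (y : E p) :
    ∑ x, ‖((T (E p) b).mulVec (Pi.single y 1)) x‖ ^ 2 = (E p).card := by
  have h : ∀ x, ‖((T (E p) b).mulVec (Pi.single y 1)) x‖ ^ 2 = 1 := by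
    intro x
    rw [Matrix.mulVec_single_one]
    show ‖ch (b y) x‖ ^ 2 = 1
    rw [norm_ch, one_pow]
  rw [Finset.sum_congr rfl fun x _ => h x, Finset.sum_const, card_univ, Fintype.card_coe,
    nsmul_eq_mul, mul_one]

theorem single_norm {ι : Type} [Fintype ι] [DecidableEq ι] (y : ι) :
    ∑ z, ‖(Pi.single y (1 : ℂ) : ι → ℂ) z‖ ^ 2 = 1 := by
  rw [Finset.sum_eq_single y]
  · simp
  · intro z _ hz
    rw [Pi.single_eq_of_ne hz]
    simp
  · intro h
    exact absurd (mem_univ _) h

include hdet in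
/-- A vertex of high degree. -/
theorem high (a : E p → ZMod p) (g : ZMod p → ZMod p × ZMod p) (hg : Function.Injective g)
    (hgE : ∀ t, g t ∈ E p) (hch : ∀ y t, ch (b y) (g t) = ZMod.stdAddChar (a y * t)) (u : ZMod p)
    (m : ℕ) (hm : m < (univ.filter fun y => a y = u).card) :
    (m : ℝ) / 3 ≤ ‖T (E p) b‖ ^ 2 * ‖(T (E p) b)⁻¹‖ ^ 2 := by
  classical
  set J := univ.filter fun y => a y = u with hJ
  have hp : (0 : ℝ) < p := Nat.cast_pos.2 (Nat.pos_of_ne_zero (NeZero.ne p))
  have hcard : ((E p).card : ℝ) ≤ 2 * p + 1 := by exact_mod_cast card_E_le (p := p)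
  have hcard' : (p : ℝ) ≤ (E p).card := by exact_mod_cast card_E_ge (p := p)
  have hmJ : (m : ℝ) + 1 ≤ J.card := by exact_mod_cast hm
  have hm0 : (0 : ℝ) ≤ m := Nat.cast_nonneg m
  let y0 : E p := ⟨(0, 0), mem_E.2 (Or.inl rfl)⟩
  have h := ratio_ge (T (E p) b) hdet (Pi.single y0 1) (fun y => if y ∈ J then 1 else 0)
    1 (J.card) ((E p).card) ((p : ℝ) * J.card ^ 2) (single_norm y0).ge (single_sum b y0).le
    (by linarith) ?_ (by linarith) ?_ zero_le_one
  · refine le_trans ?_ h
    rw [mul_one, div_le_div_iff₀ (by norm_num) (mul_pos (by linarith) (by linarith))]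
    have h1 : (m : ℝ) * (E p).card ≤ p * J.card * 3 := by
      have h2 : (m : ℝ) * (E p).card ≤ m * (2 * p + 1) := mul_le_mul_of_nonneg_left hcard hm0
      have hp1 : (1 : ℝ) ≤ p := by exact_mod_cast Nat.pos_of_ne_zero (NeZero.ne p)
      have h3 : (m : ℝ) * (2 * p + 1) ≤ m * (3 * p) := mul_le_mul_of_nonneg_left (by linarith) hm0
      have h4 : (m : ℝ) * (3 * p) ≤ J.card * (3 * p) :=
        mul_le_mul_of_nonneg_right (by linarith) (by linarith)
      linarith
    calc (m : ℝ) * (J.card * (E p).card) = (m * (E p).card) * J.card := by ring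
      _ ≤ (p * J.card * 3) * J.card := mul_le_mul_of_nonneg_right h1 (by linarith)
      _ = _ := by ring
  · apply le_of_eq
    have h1 : ∀ y, ‖(if y ∈ J then (1 : ℂ) else 0)‖ ^ 2 = if y ∈ J then (1 : ℝ) else 0 := by
      intro y
      split_ifs <;> simp
    rw [Finset.sum_congr rfl fun y _ => h1 y, Finset.sum_ite_mem, Finset.univ_inter,
      Finset.sum_const, nsmul_eq_mul, mul_one]
  · have h1 : ∀ t, ‖∑ y, ch (b y) (g t) * (if y ∈ J then (1 : ℂ) else 0)‖ ^ 2
        = (J.card : ℝ) ^ 2 := by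
      intro t
      have h2 : ∑ y, ch (b y) (g t) * (if y ∈ J then (1 : ℂ) else 0)
          = J.card * ZMod.stdAddChar (u * t) := by
        calc ∑ y, ch (b y) (g t) * (if y ∈ J then (1 : ℂ) else 0)
            = ∑ y, if y ∈ J then (ZMod.stdAddChar (u * t) : ℂ) else 0 := by
              apply Finset.sum_congr rfl
              intro y _
              by_cases hy : y ∈ J
              · rw [if_pos hy, if_pos hy, mul_one, hch, (mem_filter.1 hy).2]
              · rw [if_neg hy, if_neg hy, mul_zero]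
          _ = _ := by
              rw [Finset.sum_ite_mem, Finset.univ_inter, Finset.sum_const, nsmul_eq_mul]
      rw [h2, norm_mul, norm_char, mul_one, Complex.norm_natCast]
    have h3 := sum_part_le (p := p)
      (fun x => ‖∑ y, ch (b y) x * (if y ∈ J then (1 : ℂ) else 0)‖ ^ 2) (fun x => by positivity)
      g hg hgE
    rw [Finset.sum_congr rfl fun t _ => h1 t, Finset.sum_const, card_univ, ZMod.card,
      nsmul_eq_mul] at h3
    exact h3

/-- Upper bound for sums over `E`. -/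
theorem sum_E_le (f : ZMod p × ZMod p → ℝ) (hf : ∀ x, 0 ≤ f x) :
    ∑ x : E p, f x.1 ≤ ∑ t, f (0, t) + ∑ t, f (t, t) + f (1, 0) := by
  rw [Finset.sum_coe_sort (E p) f]
  have h0 : ∀ A B : Finset (ZMod p × ZMod p), ∑ x ∈ A ∪ B, f x ≤ ∑ x ∈ A, f x + ∑ x ∈ B, f x := by
    intro A B
    rw [← Finset.sum_union_inter]
    have := Finset.sum_nonneg (s := A ∩ B) (f := f) fun x _ => hf x
    linarith
  unfold E
  refine (h0 _ _).trans ?_
  rw [Finset.sum_singleton]
  refine add_le_add_left ((h0 _ _).trans ?_) _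
  rw [Finset.sum_image (fun x _ y _ h => (Prod.ext_iff.1 h).2),
    Finset.sum_image (fun x _ y _ h => (Prod.ext_iff.1 h).2)]

/-- All degrees are small: there is a long path. -/
theorem low (m : ℕ) (hm : 1 ≤ m) (hmp : m ^ 2 ≤ p) {u : ZMod p} (hu : m ≤ lam b hdet u) :
    (m : ℝ) / 8 ≤ ‖T (E p) b‖ ^ 2 * ‖(T (E p) b)⁻¹‖ ^ 2 := by
  classical
  obtain ⟨w, y, y', -, h⟩ := chain b hdet m u hu
  have hp : (0 : ℝ) < p := Nat.cast_pos.2 (Nat.pos_of_ne_zero (NeZero.ne p))
  have hcard' : (p : ℝ) ≤ (E p).card := by exact_mod_cast card_E_ge (p := p)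
  have hm0 : (1 : ℝ) ≤ m := by exact_mod_cast hm
  have hmp' : (m : ℝ) ^ 2 ≤ p := by exact_mod_cast hmp
  have hlam : ∀ i ≤ m, lam b hdet (w i) + i = lam b hdet (w 0) := by
    intro i hi
    induction i with
    | zero => rfl
    | succ i ih =>
      have h1 := ih (by omega)
      have h2 := (h i (by omega)).2.2.2
      omega
  have hinj : ∀ i ≤ m, ∀ j ≤ m, w i = w j → i = j := by
    intro i hi j hj hij
    have h1 := hlam i hi
    have h2 := hlam j hj
    rw [hij] at h1
    omega
  have hyy : ∀ i < m, ∀ j < m, y j ≠ y' i := by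
    intro i hi j hj hij
    have h1 : w (j + 1) = w i := by rw [← (h j hj).2.1, hij, (h i hi).1]
    have h2 := hinj _ (by omega) _ (by omega) h1
    subst h2
    have h3 : rt b (y' j) = rt b (y (j + 1)) := by
      rw [(h j hj).2.2.1, hij, (h (j + 1) hi).2.2.1]
    have h4 := lam_step b hdet h3
    rw [(h j hj).1, (h (j + 1) hi).2.1] at h4
    have h5 := hlam j (by omega)
    have h6 := hlam (j + 1 + 1) (by omega)
    omega
  let c : E p → ℂ := fun z => ∑ i ∈ range m, ((if y i = z then 1 else 0) - if y' i = z then 1 else 0)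
  have hc : ∀ i < m, c (y' i) = -1 := by
    intro i hi
    show ∑ j ∈ range m, ((if y j = y' i then (1 : ℂ) else 0) - if y' j = y' i then 1 else 0) = -1
    rw [Finset.sum_eq_single i]
    · rw [if_neg (hyy i hi i hi), if_pos rfl]
      ring
    · intro j hj hji
      rw [if_neg (hyy i hi j (mem_range.1 hj)), if_neg, sub_zero]
      intro h1
      apply hji
      apply hinj _ (mem_range.1 hj).le _ hi.le
      rw [← (h j (mem_range.1 hj)).1, h1, (h i hi).1]
    · intro h1
      exact absurd (mem_range.2 hi) h1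
  have hcn : (m : ℝ) ≤ ∑ z, ‖c z‖ ^ 2 := by
    have hinj' : Set.InjOn y' (range m : Set ℕ) := by
      intro i hi j hj hij
      have hi' := mem_range.1 (mem_coe.1 hi)
      have hj' := mem_range.1 (mem_coe.1 hj)
      exact hinj _ hi'.le _ hj'.le (by rw [← (h i hi').1, hij, (h j hj').1])
    calc (m : ℝ) = ∑ i ∈ range m, ‖c (y' i)‖ ^ 2 := by
          rw [Finset.sum_congr rfl fun i hi => by rw [hc i (mem_range.1 hi)]]
          simp
      _ = ∑ z ∈ (range m).image y', ‖c z‖ ^ 2 := (Finset.sum_image (f := fun z => ‖c z‖ ^ 2) hinj').symm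
      _ ≤ _ := Finset.sum_le_sum_of_subset_of_nonneg (subset_univ _) fun _ _ _ => by positivity
  have hTc : ∀ x : E p, ((T (E p) b).mulVec c) x
      = ∑ i ∈ range m, (ch (b (y i)) x.1 - ch (b (y' i)) x.1) := by
    intro x
    show ∑ z, ch (b z) x.1 * c z = _
    simp only [c, Finset.mul_sum]
    rw [Finset.sum_comm]
    apply Finset.sum_congr rfl
    intro i _
    simp [mul_sub, Finset.sum_sub_distrib]
  let f : ZMod p × ZMod p → ℝ := fun x => ‖∑ i ∈ range m, (ch (b (y i)) x - ch (b (y' i)) x)‖ ^ 2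
  have hf : ∀ x, 0 ≤ f x := fun x => by positivity
  have hf0 : ∀ t, f (0, t) ≤ 4 := by
    intro t
    have h1 : ∑ i ∈ range m, (ch (b (y i)) (0, t) - ch (b (y' i)) (0, t))
        = (ZMod.stdAddChar (w m * t) : ℂ) - ZMod.stdAddChar (w 0 * t) := by
      rw [← Finset.sum_range_sub (fun i => (ZMod.stdAddChar (w i * t) : ℂ)) m]
      apply Finset.sum_congr rfl
      intro i hi
      rw [ch_zero b _ (0, t) rfl, ch_zero b _ (0, t) rfl, (h i (mem_range.1 hi)).1,
        (h i (mem_range.1 hi)).2.1]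
    have h2 : ‖(ZMod.stdAddChar (w m * t) : ℂ) - ZMod.stdAddChar (w 0 * t)‖ ≤ 2 := by
      refine (norm_sub_le _ _).trans ?_
      rw [norm_char, norm_char]
      norm_num
    show ‖_‖ ^ 2 ≤ _
    rw [h1]
    calc ‖(ZMod.stdAddChar (w m * t) : ℂ) - ZMod.stdAddChar (w 0 * t)‖ ^ 2 ≤ 2 ^ 2 :=
          pow_le_pow_left₀ (norm_nonneg _) h2 2
      _ = 4 := by norm_num
  have hf1 : ∀ t, f (t, t) = 0 := by
    intro t
    have h1 : ∑ i ∈ range m, (ch (b (y i)) (t, t) - ch (b (y' i)) (t, t)) = 0 := by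
      apply Finset.sum_eq_zero
      intro i hi
      rw [ch_diag b _ (t, t) rfl, ch_diag b _ (t, t) rfl, (h i (mem_range.1 hi)).2.2.1, sub_self]
    show ‖_‖ ^ 2 = _
    rw [h1]
    simp
  have hf2 : f (1, 0) ≤ 4 * m ^ 2 := by
    have h1 : ‖∑ i ∈ range m, (ch (b (y i)) (1, 0) - ch (b (y' i)) (1, 0))‖ ≤ 2 * m := by
      refine (norm_sum_le _ _).trans ?_
      calc ∑ i ∈ range m, ‖ch (b (y i)) (1, 0) - ch (b (y' i)) (1, 0)‖
          ≤ ∑ i ∈ range m, (2 : ℝ) := by
            apply Finset.sum_le_sum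
            intro i _
            refine (norm_sub_le _ _).trans ?_
            rw [norm_ch, norm_ch]
            norm_num
        _ = 2 * m := by rw [Finset.sum_const, card_range, nsmul_eq_mul]; ring
    calc f (1, 0) ≤ (2 * m) ^ 2 := pow_le_pow_left₀ (norm_nonneg _) h1 2
      _ = _ := by ring
  have hs : ∑ x, ‖((T (E p) b).mulVec c) x‖ ^ 2 ≤ 4 * p + 4 * m ^ 2 := by
    calc ∑ x, ‖((T (E p) b).mulVec c) x‖ ^ 2 = ∑ x : E p, f x.1 := by
          apply Finset.sum_congr rfl
          intro x _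
          rw [hTc]
      _ ≤ _ := sum_E_le f hf
      _ ≤ ∑ t : ZMod p, (4 : ℝ) + ∑ t : ZMod p, (0 : ℝ) + 4 * m ^ 2 := by
          refine add_le_add (add_le_add (Finset.sum_le_sum fun t _ => hf0 t)
            (Finset.sum_le_sum fun t _ => (hf1 t).le)) hf2
      _ = _ := by
          rw [Finset.sum_const, Finset.sum_const_zero, card_univ, ZMod.card, nsmul_eq_mul]
          ring
  have h := ratio_ge (T (E p) b) hdet c (Pi.single (y 0) 1) m 1 (4 * p + 4 * m ^ 2) ((E p).card)
    hcn hs (by positivity) (single_norm _).le one_pos (single_sum b _).ge (by linarith)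
  refine le_trans ?_ h
  rw [one_mul, div_le_div_iff₀ (by norm_num) (by positivity)]
  have h1 : (m : ℝ) * (4 * p + 4 * m ^ 2) ≤ m * (8 * p) :=
    mul_le_mul_of_nonneg_left (by linarith) (by linarith)
  have h2 : (p : ℝ) * m ≤ (E p).card * m := mul_le_mul_of_nonneg_right hcard' (by linarith)
  linarith

end graph

/-- The bound for all `p` and `B`. -/
theorem bound (p : ℕ) [NeZero p] (m : ℕ) (hm : (1 + m ^ 2) ^ m < p) :
    ENNReal.ofReal ((m : ℝ) / 8) ≤ rho (E p) := by
  classical
  refine le_iInf fun b => ?_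
  unfold rieszRatio
  split_ifs with hdet
  · apply ENNReal.ofReal_le_ofReal
    rcases Nat.eq_zero_or_pos m with h0 | h0
    · subst h0
      simp only [Nat.cast_zero, zero_div]
      positivity
    have hm0 : (0 : ℝ) ≤ m := Nat.cast_nonneg m
    by_cases hl : ∀ u, (univ.filter fun y => lf b y = u).card ≤ m
    · by_cases hr : ∀ v, (univ.filter fun y => rt b y = v).card ≤ m
      · have h1 : ∃ u, u ∉ R b m := by
          by_contra h2
          push Not at h2
          have h3 : (R b m) = univ := Finset.eq_univ_iff_forall.2 h2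
          have h4 := card_R b m hl hr m
          rw [h3, card_univ, ZMod.card] at h4
          omega
        obtain ⟨u, hu⟩ := h1
        have hmono : ∀ k l, k ≤ l → R b k ⊆ R b l := by
          intro k l hkl
          induction l, hkl using Nat.le_induction with
          | base => exact subset_rfl
          | succ l _ ih => exact ih.trans (by rw [R]; exact subset_union_left)
        have h5 : m ≤ lam b hdet u := by
          by_contra h6
          exact hu (hmono _ _ (by omega) (lam_mem b hdet u))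
        refine low b hdet m h0 ?_ h5
        have h7 : m ^ 2 ≤ (1 + m ^ 2) ^ m := by
          calc m ^ 2 ≤ (1 + m ^ 2) ^ 1 := by rw [pow_one]; omega
            _ ≤ (1 + m ^ 2) ^ m := Nat.pow_le_pow_right (by omega) h0
        omega
      · push Not at hr
        obtain ⟨v, hv⟩ := hr
        have h := high b hdet (rt b) (fun t => (t, t)) (fun x y h => (Prod.ext_iff.1 h).2)
          (fun t => mem_E.2 (Or.inr (Or.inl rfl))) (fun y t => ch_diag b y (t, t) rfl) v m hv
        linarith
    · push Not at hl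
      obtain ⟨u, hu⟩ := hl
      have h := high b hdet (lf b) (fun t => (0, t)) (fun x y h => (Prod.ext_iff.1 h).2)
        (fun t => mem_E.2 (Or.inl rfl)) (fun y t => ch_zero b y (0, t) rfl) u m hu
      linarith
  · exact le_top

/-- The Riesz ratios of the sets `E_n` tend to infinity; explicitly, `ρ (E) ≥ m / 8` as soon as
`p > (1 + m²)^m`. -/
theorem result :
    (∀ (p : ℕ) (_ : NeZero p) (m : ℕ), (1 + m ^ 2) ^ m < p → ENNReal.ofReal ((m : ℝ) / 8) ≤ rho (E p)) ∧
    Filter.Tendsto (fun n => rho (E (oddPrime n))) Filter.atTop (nhds ⊤) := by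
  refine ⟨fun p _ m hm => bound p m hm, ?_⟩
  rw [ENNReal.tendsto_nhds_top_iff_nat]
  intro N
  have hN : ((N : ℕ) : ℝ≥0∞) < ENNReal.ofReal (((8 * N + 8 : ℕ) : ℝ) / 8) := by
    rw [← ENNReal.ofReal_natCast, ENNReal.ofReal_lt_ofReal_iff]
    · push_cast
      linarith
    · push_cast
      positivity
  filter_upwards [Filter.eventually_ge_atTop ((1 + (8 * N + 8) ^ 2) ^ (8 * N + 8) + 1)] with n hn
  refine lt_of_lt_of_le hN (bound (oddPrime n) (8 * N + 8) ?_)
  have h : n ≤ oddPrime n := Nat.le_nth (fun hf => absurd hf Nat.infinite_setOfPred_prime.not_finite)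
  omega

end Pool.Agent.Results.MP_1b30fb_an.Unbounded
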